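import Pool.Agent.Lib.MP_1f44d9_lc.Hard.Statement
import Pool.Agent.Lib.PolyTime.NatBin

/-!
# Decoding the word of an input
-/

namespace Pool.Agent.Lib.PmtnHard

open Pool.Agent.Lib.PolyTime

/-- One step of the reader of a sequence of self-delimiting numbers: the state consists of a flag
(is the next bit a digit?), the digits of the current number and the finished numbers. -/
def decodeStep (s : Bool × List Bool × List (List Bool)) (b : Bool) :
    Bool × List Bool × List (List Bool) :=
  if s.1 = true then (false, b :: s.2.1, s.2.2)
  else if b = true then (true, s.2.1, s.2.2)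
  else (false, [], s.2.1.reverse :: s.2.2)

/-- the number with given digits -/
def decodeVal (l : List Bool) : NBin := bval l

/-- the numbers of a sequence of self-delimiting numbers -/
def decodeNums (w : List Bool) : List NBin :=
  (w.foldl decodeStep (false, [], [])).2.2.reverse.map decodeVal

/-- collecting pairs -/
def decodePStep (s : Option NBin × List (NBin × NBin)) (x : NBin) :
    Option NBin × List (NBin × NBin) :=
  s.1.elim (some x, s.2) (fun y => (none, (y, x) :: s.2))

/-- consecutive pairs of a list -/
def decodePairs (l : List NBin) : List (NBin × NBin) :=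
  (l.foldl decodePStep (none, [])).2.reverse

/-- the decoder -/
def decodeWord (w : List Bool) : NBin × NBin × List (NBin × NBin) :=
  ((decodeNums w).headD (0 : ℕ), (decodeNums w).tail.headD (0 : ℕ),
    decodePairs (decodeNums w).tail.tail.tail)

theorem decode_polyF_nums : PolyF decodeNums := by
  have h1 : PolyF (fun w : List Bool => w.foldl decodeStep (false, [], [])) := by
    refine PolyF.foldl_add (l := fun w : List Bool => w)
      (i := fun _ => ((false, [], []) : Bool × List Bool × List (List Bool)))
      (f := fun _ s b => decodeStep s b) PolyF.id (PolyF.const _) ?_ (fun _ => 3)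
      (PBd.const 3) ?_
    · refine PolyF.iteBool (c := fun p : List Bool × (Bool × List Bool × List (List Bool)) × Bool =>
        p.2.1.1) PolyF.snd'.fst.fst ?_ ?_
      · exact (PolyF.const false).pair
          ((PolyF.snd'.snd.cons PolyF.snd'.fst.snd.fst).pair PolyF.snd'.fst.snd.snd)
      · refine PolyF.iteBool (c := fun p : List Bool × (Bool × List Bool × List (List Bool)) × Bool =>
          p.2.2) PolyF.snd'.snd ?_ ?_
        · exact (PolyF.const true).pair (PolyF.snd'.fst.snd.fst.pair PolyF.snd'.fst.snd.snd)
        · exact (PolyF.const false).pair ((PolyF.const []).pair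
            (PolyF.snd'.fst.snd.fst.reverse.cons PolyF.snd'.fst.snd.snd))
    · rintro x ⟨a, cur, acc⟩ b _
      have hb := sz_bool_le b
      have hf : sz false = 0 := rfl
      have ht : sz true = 1 := rfl
      simp only [decodeStep]
      split_ifs with c1 c2
      · simp only [sz_prod, sz_cons]
        omega
      · simp only [sz_prod]
        omega
      · simp only [sz_prod, sz_cons, sz_nil, sz_reverse]
        omega
  have h2 : PolyF decodeVal := (PolyF.ofBits (f := fun l : List Bool => l) PolyF.id).ofBin
  exact h1.snd.snd.reverse.map (h := fun _ (l : List Bool) => decodeVal l)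
    (h2.comp PolyF.snd')

theorem decode_polyF_pairs : PolyF decodePairs := by
  have h1 : PolyF (fun l : List NBin => l.foldl decodePStep (none, [])) := by
    refine PolyF.foldl_add (l := fun l : List NBin => l)
      (i := fun _ => ((none, []) : Option NBin × List (NBin × NBin)))
      (f := fun _ s b => decodePStep s b) PolyF.id (PolyF.const _) ?_ (fun l => 3 + sz l)
      ((PBd.const 3).add PBd.size) ?_
    · refine PolyF.optionElim (o := fun p : List NBin × (Option NBin × List (NBin × NBin)) × NBin =>
        p.2.1.1) (h := fun p y => ((none, (y, p.2.2) :: p.2.1.2) :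
          Option NBin × List (NBin × NBin))) PolyF.snd'.fst.fst ?_ ?_
      · exact PolyF.snd'.snd.some.pair PolyF.snd'.fst.snd
      · exact (PolyF.const none).pair ((PolyF.snd'.pair PolyF.fst'.snd.snd).cons
          PolyF.fst'.snd.fst.snd)
    · rintro x ⟨a, acc⟩ b hb
      have h2 := sz_mem hb
      cases a with
      | none =>
        simp only [decodePStep, Option.elim_none, sz_prod, sz_some, sz_none]
        omega
      | some y =>
        simp only [decodePStep, Option.elim_some, sz_prod, sz_some, sz_none, sz_cons]
        omega
  exact h1.snd.reverse

theorem decode_polyF : PolyF decodeWord := by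
  refine (decode_polyF_nums.headD (PolyF.nbConst 0)).pair
    ((decode_polyF_nums.tail.headD (PolyF.nbConst 0)).pair ?_)
  exact decode_polyF_pairs.comp decode_polyF_nums.tail.tail.tail

theorem decode_bits (l : List Bool) : ∀ (cur : List Bool) (acc : List (List Bool)),
    (l.flatMap fun b => [true, b]).foldl decodeStep (false, cur, acc) =
      (false, l.reverse ++ cur, acc) := by
  induction l with
  | nil => intro cur acc; rfl
  | cons b l ih =>
    intro cur acc
    rw [List.flatMap_cons, List.foldl_append]
    have h : [true, b].foldl decodeStep (false, cur, acc) = (false, b :: cur, acc) := by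
      simp [decodeStep]
    rw [h, ih]
    simp

theorem decode_natWord (n : ℕ) (acc : List (List Bool)) :
    (Input.natWord n).foldl decodeStep (false, [], acc) = (false, [], Nat.bits n :: acc) := by
  unfold Input.natWord
  rw [List.foldl_append, decode_bits]
  simp [decodeStep]

theorem decode_words (ns : List ℕ) : ∀ acc : List (List Bool),
    (ns.flatMap Input.natWord).foldl decodeStep (false, [], acc) =
      (false, [], (ns.map Nat.bits).reverse ++ acc) := by
  induction ns with
  | nil => intro acc; rfl
  | cons n ns ih =>
    intro acc
    rw [List.flatMap_cons, List.foldl_append, decode_natWord, ih]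
    simp

theorem decode_word_eq (I : Input) : I.word =
    ([I.m, I.k, I.jobs.length] ++ I.jobs.flatMap fun j => [j.1, j.2]).flatMap Input.natWord := by
  unfold Input.word
  have h : ∀ l : List (ℕ × ℕ), (l.flatMap fun j => [j.1, j.2]).flatMap Input.natWord =
      l.flatMap fun j => Input.natWord j.1 ++ Input.natWord j.2 := by
    intro l
    induction l with
    | nil => rfl
    | cons a l ih =>
      rw [List.flatMap_cons, List.flatMap_append, ih, List.flatMap_cons]
      simp
  rw [List.flatMap_append, h]
  simp

theorem decode_nums_word (ns : List ℕ) :
    decodeNums (ns.flatMap Input.natWord) = (show List NBin from ns) := by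
  unfold decodeNums
  rw [decode_words]
  simp only [List.append_nil, List.reverse_reverse, List.map_map]
  induction ns with
  | nil => rfl
  | cons a l ih =>
    rw [List.map_cons, ih]
    exact congrArg (fun b : ℕ => (b :: l : List ℕ)) (bval_bits a)

theorem decode_pairs_eq (l : List (NBin × NBin)) : ∀ acc : List (NBin × NBin),
    (l.flatMap fun j => [j.1, j.2]).foldl decodePStep (none, acc) =
      (none, l.reverse ++ acc) := by
  induction l with
  | nil => intro acc; rfl
  | cons a l ih =>
    intro acc
    rw [List.flatMap_cons, List.foldl_append]
    have h : [a.1, a.2].foldl decodePStep (none, acc) = (none, a :: acc) := rfl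
    rw [h, ih]
    simp

theorem exists_decode : ∃ dec : List Bool → NBin × NBin × List (NBin × NBin), PolyF dec ∧
    ∀ I : Input, dec I.word = (I.m, I.k, I.jobs) := by
  refine ⟨decodeWord, decode_polyF, fun I => ?_⟩
  unfold decodeWord
  rw [decode_word_eq I, decode_nums_word]
  refine Prod.ext rfl (Prod.ext rfl ?_)
  have h := decode_pairs_eq I.jobs []
  change decodePairs ((show List (NBin × NBin) from I.jobs).flatMap fun j => [j.1, j.2]) = _
  unfold decodePairs
  rw [h]
  simp

end Pool.Agent.Lib.PmtnHard
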