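import Pool.Agent.Lib.MP_1f44d9_lc.Late.Statement
import Pool.Agent.Lib.UBox.Defs

/-!
# Late jobs as a box problem: definitions
-/

namespace Pool.Agent.Lib.PmtnHard

open Pool.Agent.Lib.PolyTime Pool.Agent.Lib.UBox

/-- The distinct processing times. -/
def ptimes (J : List (ℕ × ℕ)) : List ℕ := (J.map Prod.fst).dedup

/-- The due dates of the jobs with processing time `p`, the latest first. -/
def dues (J : List (ℕ × ℕ)) (p : ℕ) : List ℕ :=
  ((J.filter fun j => decide (j.1 = p)).map Prod.snd).insertionSort (· ≥ ·)

/-- The work to be done before time `t` on `x` jobs with processing time `p` and latest due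
dates. -/
def load (J : List (ℕ × ℕ)) (p t x : ℕ) : ℕ := (((dues J p).take x).map fun d => p - (d - t)).sum

/-- The work to be done before time `t` on the `x`-th job with processing time `p`. -/
def slope (J : List (ℕ × ℕ)) (p t x : ℕ) : ℕ :=
  if x = 0 then 0 else p - ((dues J p).getD (x - 1) 0 - t)

/-- Total work to be done before time `t`, for `x_i` jobs of the `i`-th processing time. -/
def totalLoad (J : List (ℕ × ℕ)) (t : ℕ) (x : List ℤ) : ℕ :=
  (List.zipWith (fun p a => load J p t a.toNat) (ptimes J) x).sum

/-- The numbers of on-time jobs for the processing times that are possible. -/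
def good (m k : ℕ) (J : List (ℕ × ℕ)) (x : List ℤ) : Prop :=
  x.length = (ptimes J).length ∧
  (∀ i < (ptimes J).length, 0 ≤ x.getD i 0 ∧ x.getD i 0 ≤ (dues J ((ptimes J).getD i 0)).length) ∧
  (J.length : ℤ) ≤ x.sum + k ∧
  ∀ t ∈ 0 :: J.map Prod.snd, totalLoad J t x ≤ m * t

/-- The separation oracle. -/
def orcL (m k : ℕ) (J : List (ℕ × ℕ)) (x : List ℤ) : Option (List ℤ) :=
  match (List.range (ptimes J).length).find? fun i =>
      decide (((dues J ((ptimes J).getD i 0)).length : ℤ) < x.getD i 0) with
  | some i => some (unitv (ptimes J).length i)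
  | none =>
    if x.sum + k < J.length then some (List.replicate (ptimes J).length (-1))
    else match (0 :: J.map Prod.snd).find? fun t => decide (m * t < totalLoad J t x) with
      | some t => some (List.zipWith (fun p a => (slope J p t a.toNat : ℤ)) (ptimes J) x)
      | none => none

end Pool.Agent.Lib.PmtnHard
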