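import Pool.Agent.Lib.MP_1f44d9_lc.Late.Defs
import Pool.Agent.Lib.PolyTime.NatBin

/-!
# Polynomial time for the oracle
-/

namespace Pool.Agent.Lib.PmtnHard

open Pool.Agent.Lib.PolyTime Pool.Agent.Lib.UBox

section lists

variable {α β : Type*} [TEnc α] [TEnc β]

theorem lpoly_takeWhile {l : α → List β} {p : α → β → Bool} (hl : PolyF l)
    (hp : PolyF (fun q : α × β => p q.1 q.2)) : PolyF (fun x => (l x).takeWhile (p x)) := by
  refine (PolyF.foldr_add (i := fun _ => ([] : List β))
    (f := fun x b c => if p x b = true then b :: c else []) hl (PolyF.const _)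
    (PolyF.iteBool (hp.comp (PolyF.fst'.pair PolyF.snd'.fst))
      (PolyF.snd'.fst.cons PolyF.snd'.snd) (PolyF.const _))
    (fun x => sz (l x)) hl.pbd (fun x c b hb => ?_)).congr fun x => ?_
  · have := sz_mem hb
    split_ifs
    · rw [sz_cons]; omega
    · rw [sz_nil]; omega
  · induction l x with
    | nil => rfl
    | cons b t ih =>
      rw [List.foldr_cons, ih, List.takeWhile_cons]

theorem lpoly_dropWhile {l : α → List β} {p : α → β → Bool} (hl : PolyF l)
    (hp : PolyF (fun q : α × β => p q.1 q.2)) : PolyF (fun x => (l x).dropWhile (p x)) := by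
  refine (PolyF.drop (lpoly_takeWhile hl hp).length hl).congr fun x => ?_
  conv_lhs => rw [← List.takeWhile_append_dropWhile (p := p x) (l := l x)]
  rw [List.takeWhile_append_dropWhile]
  have h := List.takeWhile_append_dropWhile (p := p x) (l := l x)
  calc (l x).drop ((l x).takeWhile (p x)).length
      = ((l x).takeWhile (p x) ++ (l x).dropWhile (p x)).drop
        ((l x).takeWhile (p x)).length := by rw [h]
    _ = (l x).dropWhile (p x) := List.drop_left

end lists

section main

variable {α : Type} [TEnc α]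

theorem lpoly_insert_key (b : ℕ) (t : List ℕ) : (t.takeWhile fun y => !decide (y ≤ b)) ++
      b :: (t.dropWhile fun y => !decide (y ≤ b)) =
      List.orderedInsert (fun u v : ℕ => u ≥ v) b t := by
  induction t with
  | nil => rfl
  | cons y t ih =>
    rw [List.orderedInsert_cons]
    by_cases h : y ≤ b
    · rw [List.takeWhile_cons, List.dropWhile_cons]
      simp [h]
    · rw [List.takeWhile_cons, List.dropWhile_cons]
      simp only [h, decide_false, Bool.not_false, if_true]
      rw [List.cons_append, ih]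
      simp

theorem lpoly_orderedInsert {a : α → NBin} {l : α → List NBin} (ha : PolyF a) (hl : PolyF l) :
    PolyF (α := α) (β := List NBin) (fun x =>
      @List.orderedInsert ℕ (fun u v => u ≥ v) (fun _ _ => inferInstance) (a x) (l x)) := by
  have hp : PolyF (fun q : α × NBin => !@decide (@LE.le ℕ instLENat q.2 (a q.1))
      (Nat.decLe q.2 (a q.1))) :=
    (PolyF.nbLe PolyF.snd' (ha.comp PolyF.fst')).not
  have h1 := (lpoly_takeWhile (p := fun (x : α) (b : NBin) => !@decide (@LE.le ℕ instLENat b (a x))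
    (Nat.decLe b (a x))) hl hp)
  have h2 := (lpoly_dropWhile (p := fun (x : α) (b : NBin) => !@decide (@LE.le ℕ instLENat b (a x))
    (Nat.decLe b (a x))) hl hp)
  refine (h1.append (ha.cons h2)).congr fun x => ?_
  exact lpoly_insert_key (a x) (l x)

theorem lpoly_insertionSort {l : α → List NBin} (hl : PolyF l) :
    PolyF (α := α) (β := List NBin) (fun x =>
      @List.insertionSort ℕ (fun u v => u ≥ v) (fun _ _ => inferInstance) (l x)) := by
  refine (PolyF.foldr_add (β := NBin) (γ := List NBin) (i := fun _ => ([] : List NBin))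
    (f := fun _ b c => @List.orderedInsert ℕ (fun u v => u ≥ v) (fun _ _ => inferInstance) b c)
    hl (PolyF.const _) (lpoly_orderedInsert PolyF.snd'.fst PolyF.snd'.snd)
    (fun x => sz (l x)) hl.pbd (fun x c b hb => ?_)).congr fun x => rfl
  have h1 := sz_mem hb
  have h2 : @sz (List NBin) _ (@List.orderedInsert ℕ (fun u v => u ≥ v)
      (fun _ _ => inferInstance) b c) = 1 + @sz NBin _ b + @sz (List NBin) _ c := by
    have h3 := lpoly_insert_key b c
    have h4 : ∀ (u v : List NBin), @sz (List NBin) _ (u ++ b :: v) =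
        1 + @sz NBin _ b + @sz (List NBin) _ (u ++ v) := by
      intro u v
      rw [sz_append, sz_append, sz_cons]; ring
    have h5 := h4 (@List.takeWhile ℕ (fun y => !@decide (@LE.le ℕ instLENat y b) (Nat.decLe y b)) c)
      (@List.dropWhile ℕ (fun y => !@decide (@LE.le ℕ instLENat y b) (Nat.decLe y b)) c)
    have h6 : @List.takeWhile ℕ (fun y => !@decide (@LE.le ℕ instLENat y b) (Nat.decLe y b)) c ++
      @List.dropWhile ℕ (fun y => !@decide (@LE.le ℕ instLENat y b) (Nat.decLe y b)) c = c :=
      List.takeWhile_append_dropWhile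
    exact ((congrArg (@sz (List NBin) _) h3).symm.trans h5).trans
      (congrArg (fun w => 1 + @sz NBin _ b + @sz (List NBin) _ w) h6)
  exact h2.le.trans (by omega)

theorem lpoly_mem {b : α → NBin} {c : α → List NBin} (hb : PolyF b) (hc : PolyF c) :
    PolyF (fun x => (c x).any fun y => @decide (@Eq ℕ y (b x)) (instDecidableEqNat y (b x))) :=
  PolyF.any (p := fun (x : α) (y : NBin) =>
    @decide (@Eq ℕ y (b x)) (instDecidableEqNat y (b x))) hc
    (PolyF.nbEq PolyF.snd' (hb.comp PolyF.fst'))

theorem lpoly_dedup {l : α → List NBin} (hl : PolyF l) :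
    PolyF (α := α) (β := List NBin) (fun x => @List.dedup ℕ _ (l x)) := by
  refine (PolyF.foldr_add (β := NBin) (γ := List NBin) (i := fun _ => ([] : List NBin))
    (f := fun _ b c => if (c.any fun y => @decide (@Eq ℕ y b) (instDecidableEqNat y b)) = true
      then c else b :: c) hl (PolyF.const _)
    (PolyF.iteBool (lpoly_mem PolyF.snd'.fst PolyF.snd'.snd) PolyF.snd'.snd
      (PolyF.snd'.fst.cons PolyF.snd'.snd))
    (fun x => sz (l x)) hl.pbd (fun x c b hb => ?_)).congr fun x => ?_
  · have := sz_mem hb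
    split_ifs
    · omega
    · rw [sz_cons]; omega
  · have key : ∀ t : List ℕ, t.foldr (fun b c => if (c.any fun y => decide (y = b)) = true
        then c else b :: c) [] = t.dedup := by
      intro t
      induction t with
      | nil => rfl
      | cons b t ih =>
        rw [List.foldr_cons, ih]
        by_cases h : b ∈ t
        · rw [List.dedup_cons_of_mem h, if_pos]
          rw [List.any_eq_true]
          exact ⟨b, List.mem_dedup.2 h, by simp⟩
        · rw [List.dedup_cons_of_notMem h, if_neg]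
          rw [List.any_eq_true]
          rintro ⟨y, hy, hyb⟩
          exact h (by simpa [of_decide_eq_true hyb] using List.mem_dedup.1 hy)
    exact key (l x)

theorem lpoly_ptimes {J : α → List (NBin × NBin)} (hJ : PolyF J) :
    PolyF (α := α) (β := List NBin) (fun a => ptimes (J a)) :=
  lpoly_dedup (PolyF.map (β := NBin × NBin) (γ := NBin) (h := fun _ p => p.1) hJ PolyF.snd'.fst)

theorem lpoly_dues {J : α → List (NBin × NBin)} {p : α → NBin} (hJ : PolyF J) (hp : PolyF p) :
    PolyF (α := α) (β := List NBin) (fun a => dues (J a) (p a)) := by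
  refine lpoly_insertionSort (l := fun a => ((J a).filter fun j =>
    @decide (@Eq ℕ j.1 (p a)) (instDecidableEqNat j.1 (p a))).map Prod.snd) ?_
  refine PolyF.map (β := NBin × NBin) (γ := NBin) (h := fun _ p => p.2) ?_ PolyF.snd'.snd
  exact PolyF.filter (β := NBin × NBin) (p := fun (a : α) (j : NBin × NBin) =>
    @decide (@Eq ℕ j.1 (p a)) (instDecidableEqNat j.1 (p a))) hJ
    (PolyF.nbEq PolyF.snd'.fst (hp.comp PolyF.fst'))

theorem lpoly_take_min (l : List ℕ) (n : ℕ) : l.take (min n l.length) = l.take n := by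
  rcases le_total n l.length with h | h
  · rw [min_eq_left h]
  · rw [min_eq_right h, List.take_length, List.take_of_length_le h]

theorem lpoly_getD_min (l : List ℕ) (n : ℕ) : (l[min n l.length]?).getD 0 = l.getD n 0 := by
  rw [List.getD_eq_getElem?_getD]
  rcases le_total n l.length with h | h
  · rw [min_eq_left h]
  · rw [min_eq_right h, List.getElem?_eq_none le_rfl, List.getElem?_eq_none h]

theorem lpoly_slope_eq (l : List ℕ) (p t x : ℕ) : (if x = 0 then 0 else
    p - ((l[min (x - 1) l.length]?).getD 0 - t)) = if x = 0 then 0 else p - (l.getD (x - 1) 0 - t)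
    := by
  rw [lpoly_getD_min]

theorem lpoly_load {J : α → List (NBin × NBin)} {p t x : α → NBin} (hJ : PolyF J)
    (hp : PolyF p) (ht : PolyF t) (hx : PolyF x) :
    PolyF (α := α) (β := NBin) (fun a => load (J a) (p a) (t a) (x a)) := by
  have hd := lpoly_dues hJ hp
  have h1 : PolyF (α := α) (β := NBin) (fun a => @List.sum ℕ _ _
      (List.map (fun d : ℕ => @HSub.hSub ℕ ℕ ℕ instHSub (p a) (@HSub.hSub ℕ ℕ ℕ instHSub d (t a)))
      ((dues (J a) (p a)).take (@min ℕ _ (x a) (dues (J a) (p a)).length)))) := by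
    refine PolyF.nbSum ?_
    refine PolyF.map (β := NBin) (γ := NBin) (h := fun (a : α) (d : NBin) =>
      @HSub.hSub ℕ ℕ ℕ instHSub (p a) (@HSub.hSub ℕ ℕ ℕ instHSub d (t a))) ?_ ?_
    · exact PolyF.take (β := NBin) (PolyF.natOfNb hx (PolyF.length (β := NBin) hd)) hd
    · exact PolyF.nbSub (hp.comp PolyF.fst') (PolyF.nbSub PolyF.snd' (ht.comp PolyF.fst'))
  refine h1.congr fun a => ?_
  unfold load
  congr 2
  exact lpoly_take_min (dues (J a) (p a)) (x a)

theorem lpoly_slope {J : α → List (NBin × NBin)} {p t x : α → NBin} (hJ : PolyF J)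
    (hp : PolyF p) (ht : PolyF t) (hx : PolyF x) :
    PolyF (α := α) (β := NBin) (fun a => slope (J a) (p a) (t a) (x a)) := by
  have hd := lpoly_dues hJ hp
  have h0 : PolyF (fun a => @decide (@Eq ℕ (x a) 0) (instDecidableEqNat (x a) 0)) :=
    PolyF.nbEq hx (PolyF.nbConst 0)
  have hi : PolyF (α := α) (β := ℕ) (fun a => @min ℕ _ (@HSub.hSub ℕ ℕ ℕ instHSub (x a) 1)
      (dues (J a) (p a)).length) :=
    PolyF.natOfNb (PolyF.nbSub hx (PolyF.nbConst 1)) (PolyF.length (β := NBin) hd)
  have hg : PolyF (α := α) (β := NBin) (fun a => @Option.getD ℕ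
      (@getElem? (List ℕ) ℕ ℕ _ _ (dues (J a) (p a)) (@min ℕ _ (@HSub.hSub ℕ ℕ ℕ instHSub (x a) 1)
      (dues (J a) (p a)).length)) (0 : ℕ)) :=
    PolyF.getD (β := NBin) (PolyF.getElem? (β := NBin) hi hd) (PolyF.nbConst 0)
  have h1 := @PolyF.ite _ NBin _ _ (fun a => @Eq ℕ (x a) 0)
    (fun a => instDecidableEqNat (x a) 0) _ _ h0 (PolyF.nbConst 0)
    (PolyF.nbSub hp (PolyF.nbSub hg ht))
  exact h1.congr fun a => lpoly_slope_eq (dues (J a) (p a)) (p a) (t a) (x a)

theorem lpoly_totalLoad {J : α → List (NBin × NBin)} {t : α → NBin} {x : α → List ℤ}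
    (hJ : PolyF J) (ht : PolyF t) (hx : PolyF x) :
    PolyF (α := α) (β := NBin) (fun a => totalLoad (J a) (t a) (x a)) := by
  unfold totalLoad
  refine PolyF.nbSum ?_
  exact PolyF.zipWith (β := NBin) (γ := ℤ) (δ := NBin)
    (h := fun (a : α) (p : NBin) (b : ℤ) => load (J a) p (t a) b.toNat)
    (lpoly_ptimes hJ) hx (lpoly_load (hJ.comp PolyF.fst') PolyF.snd'.fst (ht.comp PolyF.fst')
      PolyF.snd'.snd.intToNat.ofBin)

theorem lpoly_unitv {d j : α → ℕ} (hd : PolyF d) (hj : PolyF j) :
    PolyF (fun a => unitv (d a) (j a)) :=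
  hd.range.map (h := fun (a : α) (i : ℕ) => if i = j a then (1 : ℤ) else 0)
    (PolyF.ite (PolyF.snd'.natEq (hj.comp PolyF.fst')) (PolyF.const _) (PolyF.const _))

theorem lpoly_bad {J : α → List (NBin × NBin)} {x : α → List ℤ} (hJ : PolyF J) (hx : PolyF x) :
    PolyF (fun a => (List.range (ptimes (J a)).length).find? fun i =>
      decide (((dues (J a) ((ptimes (J a)).getD i 0)).length : ℤ) < (x a).getD i 0)) := by
  have hpt := lpoly_ptimes hJ
  refine PolyF.find? (PolyF.range (PolyF.length (β := NBin) hpt)) ?_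
  have h1 : PolyF (α := α × ℕ) (β := NBin) (fun q => (ptimes (J q.1)).getD q.2 0) := by
    refine (PolyF.getD (β := NBin) (PolyF.getElem? (β := NBin) PolyF.snd' (hpt.comp PolyF.fst'))
      (PolyF.nbConst 0)).congr fun q => ?_
    exact (List.getD_eq_getElem?_getD (l := ptimes (J q.1)) (i := q.2) (a := 0)).symm
  have h2 : PolyF (fun q : α × ℕ => (x q.1).getD q.2 0) := by
    refine (PolyF.getD (PolyF.getElem? PolyF.snd' (hx.comp PolyF.fst'))
      (PolyF.const 0)).congr fun q => ?_
    exact List.getD_eq_getElem?_getD.symm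
  exact (PolyF.intOfNat (PolyF.length (β := NBin) (lpoly_dues (hJ.comp PolyF.fst') h1))).intLt h2

theorem lpoly_find {m : α → NBin} {J : α → List (NBin × NBin)} {x : α → List ℤ}
    (hm : PolyF m) (hJ : PolyF J) (hx : PolyF x) :
    PolyF (α := α) (β := Option NBin) (fun a => @List.find? ℕ (fun t : ℕ =>
      decide (@HMul.hMul ℕ ℕ ℕ instHMul (m a) t < totalLoad (J a) t (x a)))
      (@List.cons ℕ 0 (@List.map (ℕ × ℕ) ℕ Prod.snd (J a)))) := by
  refine PolyF.find? (β := NBin) (p := fun (a : α) (t : NBin) => @decide (@LT.lt ℕ instLTNat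
    (@HMul.hMul ℕ ℕ ℕ instHMul (m a) t) (totalLoad (J a) t (x a))) (Nat.decLt _ _)) ?_ ?_
  · exact PolyF.cons (β := NBin) (PolyF.nbConst 0)
      (PolyF.map (β := NBin × NBin) (γ := NBin) (h := fun _ p => p.2) hJ PolyF.snd'.snd)
  · exact PolyF.nbLt (PolyF.nbMul (hm.comp PolyF.fst') PolyF.snd')
      (lpoly_totalLoad (hJ.comp PolyF.fst') PolyF.snd' (hx.comp PolyF.fst'))

theorem lpoly_cut {J : α → List (NBin × NBin)} {x : α → List ℤ} {t : α → NBin}
    (hJ : PolyF J) (hx : PolyF x) (ht : PolyF t) :
    PolyF (fun a => List.zipWith (fun (p : ℕ) (b : ℤ) => (slope (J a) p (t a) b.toNat : ℤ))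
      (ptimes (J a)) (x a)) := by
  refine PolyF.zipWith (β := NBin) (γ := ℤ) (δ := ℤ)
    (h := fun (a : α) (p : NBin) (b : ℤ) => (slope (J a) p (t a) b.toNat : ℤ))
    (lpoly_ptimes hJ) hx ?_
  exact (lpoly_slope (hJ.comp PolyF.fst') PolyF.snd'.fst (ht.comp PolyF.fst')
    PolyF.snd'.snd.intToNat.ofBin).toBin.intOfBin

theorem lpoly_enough {k : α → NBin} {J : α → List (NBin × NBin)} {x : α → List ℤ}
    (hk : PolyF k) (hJ : PolyF J) (hx : PolyF x) :
    PolyF (fun a => decide ((x a).sum + @Nat.cast ℤ _ (k a) < ((J a).length : ℤ))) :=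
  (hx.intSum.intAdd hk.toBin.intOfBin).intLt (PolyF.intOfNat hJ.length)

end main

theorem lpoly_orcL_eq (m k : ℕ) (J : List (ℕ × ℕ)) (x : List ℤ) : orcL m k J x =
    ((List.range (ptimes J).length).find? fun i =>
      decide (((dues J ((ptimes J).getD i 0)).length : ℤ) < x.getD i 0)).elim
    (if x.sum + k < J.length then some (List.replicate (ptimes J).length (-1))
      else ((0 :: J.map Prod.snd).find? fun t => decide (m * t < totalLoad J t x)).map
        fun t => List.zipWith (fun p a => (slope J p t a.toNat : ℤ)) (ptimes J) x)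
    (fun i => some (unitv (ptimes J).length i)) := by
  unfold orcL
  cases h1 : (List.range (ptimes J).length).find? fun i =>
      decide (((dues J ((ptimes J).getD i 0)).length : ℤ) < x.getD i 0) with
  | some i => rfl
  | none =>
    simp only [Option.elim_none]
    congr 1
    cases h2 : (0 :: J.map Prod.snd).find? fun t => decide (m * t < totalLoad J t x) with
    | some t => rfl
    | none => rfl

theorem polyF_orcL {α : Type} [TEnc α] {m k : α → NBin} {J : α → List (NBin × NBin)}
    {x : α → List ℤ} (hm : PolyF m) (hk : PolyF k) (hJ : PolyF J) (hx : PolyF x) :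
    PolyF (fun a => orcL (m a) (k a) (J a) (x a)) := by
  have hlen : PolyF (fun a => (ptimes (J a)).length) := PolyF.length (β := NBin) (lpoly_ptimes hJ)
  have h2 : PolyF (fun a => (@List.find? ℕ (fun t : ℕ =>
      decide (@HMul.hMul ℕ ℕ ℕ instHMul (m a) t < totalLoad (J a) t (x a)))
      (@List.cons ℕ 0 (@List.map (ℕ × ℕ) ℕ Prod.snd (J a)))).map
      fun t : ℕ => List.zipWith (fun (p : ℕ) (b : ℤ) => (slope (J a) p t b.toNat : ℤ))
        (ptimes (J a)) (x a)) :=
    PolyF.optionMap (β := NBin) (h := fun (a : α) (t : NBin) =>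
      List.zipWith (fun (p : ℕ) (b : ℤ) => (slope (J a) p t b.toNat : ℤ))
        (ptimes (J a)) (x a)) (lpoly_find hm hJ hx)
      (lpoly_cut (hJ.comp PolyF.fst') (hx.comp PolyF.fst') PolyF.snd')
  have h3 : PolyF (fun a => some (List.replicate (ptimes (J a)).length (-1 : ℤ))) :=
    (PolyF.replicate hlen (PolyF.const _)).some
  have h4 := PolyF.optionElim (h := fun (a : α) (i : ℕ) => some (unitv (ptimes (J a)).length i))
    (lpoly_bad hJ hx) (PolyF.ite (lpoly_enough hk hJ hx) h3 h2)
    (lpoly_unitv (hlen.comp PolyF.fst') PolyF.snd').some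
  exact h4.congr fun a => (lpoly_orcL_eq (m a) (k a) (J a) (x a)).symm

end Pool.Agent.Lib.PmtnHard
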