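import Pool.Agent.Lib.MP_1f44d9_lc.Late.Defs
import Pool.Agent.Lib.MP_1f44d9_lc.Main

/-!
# Late jobs as a box problem
-/

namespace Pool.Agent.Lib.PmtnHard

open Pool.Agent.Lib.PolyTime Pool.Agent.Lib.UBox

/-! ### Lists -/

/-- In a sorted list the first `k` elements have the least sum. -/
theorem liff_take_le {α : Type*} (f : α → ℕ) {L' L : List α} (h : L'.Sublist L)
    (hL : L.Pairwise fun a b => f a ≤ f b) :
    ((L.take L'.length).map f).sum ≤ (L'.map f).sum := by
  induction h with
  | slnil => simp
  | @cons l₁ l₂ a h ih =>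
    rw [List.pairwise_cons] at hL
    have ih' := ih hL.2
    rcases Nat.eq_zero_or_pos l₁.length with h0 | h0
    · rw [h0]; simp
    · obtain ⟨k, hk⟩ : ∃ k, l₁.length = k + 1 := ⟨l₁.length - 1, by omega⟩
      rw [hk] at ih' ⊢
      rw [List.take_succ_cons, List.map_cons, List.sum_cons]
      refine le_trans ?_ ih'
      have hlen : k < l₂.length := by
        have := h.length_le
        omega
      rw [List.take_succ_eq_append_getElem hlen, List.map_append, List.sum_append, add_comm]
      have := hL.1 l₂[k] (List.getElem_mem hlen)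
      simpa using this
  | @cons_cons l₁ l₂ a h ih =>
    rw [List.pairwise_cons] at hL
    have ih' := ih hL.2
    rw [List.length_cons, List.take_succ_cons, List.map_cons, List.map_cons, List.sum_cons,
      List.sum_cons]
    omega

/-- The jobs with processing time `p`, the latest due date first. -/
def liff_idx (J : List (ℕ × ℕ)) (p : ℕ) : List (Fin J.length) :=
  ((List.finRange J.length).filter fun j => decide (J[j].1 = p)).insertionSort
    fun a b => J[a].2 ≥ J[b].2

theorem liff_mem_idx {J : List (ℕ × ℕ)} {p : ℕ} {j : Fin J.length} :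
    j ∈ liff_idx J p ↔ J[j].1 = p := by
  unfold liff_idx
  rw [List.mem_insertionSort, List.mem_filter]
  simp

theorem liff_nodup_idx (J : List (ℕ × ℕ)) (p : ℕ) : (liff_idx J p).Nodup := by
  unfold liff_idx
  rw [(List.perm_insertionSort _ _).nodup_iff]
  exact (List.nodup_finRange _).filter _

theorem liff_dues (J : List (ℕ × ℕ)) (p : ℕ) :
    (liff_idx J p).map (fun j => J[j].2) = dues J p := by
  unfold liff_idx dues
  rw [List.map_insertionSort (r := fun a b : Fin J.length => J[a].2 ≥ J[b].2)
    (s := (· ≥ ·)) (fun j : Fin J.length => J[j].2) _ (fun a _ b _ => Iff.rfl)]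
  congr 1
  have h : J = (List.finRange J.length).map (fun j => J[j]) := by
    rw [← List.ofFn_eq_map]
    exact List.ofFn_getElem.symm
  conv_rhs => rw [h]
  rw [List.filter_map, List.map_map]
  rfl

theorem liff_length_dues (J : List (ℕ × ℕ)) (p : ℕ) :
    (dues J p).length = (liff_idx J p).length := by
  rw [← liff_dues, List.length_map]

theorem liff_sorted (J : List (ℕ × ℕ)) (p : ℕ) :
    (liff_idx J p).Pairwise fun a b => J[a].2 ≥ J[b].2 := by
  have h1 : ((liff_idx J p).map (fun j => J[j].2)).Pairwise (· ≥ ·) := by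
    rw [liff_dues]
    unfold dues
    exact List.pairwise_insertionSort _ _
  rwa [List.pairwise_map] at h1

theorem liff_load (J : List (ℕ × ℕ)) (p t x : ℕ) :
    load J p t x = (((liff_idx J p).take x).map fun j => J[j].1 - (J[j].2 - t)).sum := by
  unfold load
  rw [← liff_dues, ← List.map_take, List.map_map]
  congr 1
  refine List.map_congr_left fun j hj => ?_
  have := liff_mem_idx.mp (List.mem_of_mem_take hj)
  simp only [Function.comp_def]
  rw [this]

theorem liff_nodup_ptimes (J : List (ℕ × ℕ)) : (ptimes J).Nodup := List.nodup_dedup _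

theorem liff_mem_ptimes (J : List (ℕ × ℕ)) (j : Fin J.length) : J[j].1 ∈ (ptimes J).toFinset := by
  rw [List.mem_toFinset]
  unfold ptimes
  rw [List.mem_dedup, List.mem_map]
  exact ⟨J[j], List.getElem_mem j.2, rfl⟩

theorem liff_totalLoad (J : List (ℕ × ℕ)) (t : ℕ) (c : ℕ → ℕ) :
    totalLoad J t ((ptimes J).map fun p => (c p : ℤ)) =
      ∑ p ∈ (ptimes J).toFinset, load J p t (c p) := by
  unfold totalLoad
  rw [List.sum_toFinset _ (liff_nodup_ptimes J), List.zipWith_map_right, List.zipWith_self]
  rfl

theorem liff_sum (J : List (ℕ × ℕ)) (c : ℕ → ℕ) :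
    ((ptimes J).map fun p => (c p : ℤ)).sum = ((∑ p ∈ (ptimes J).toFinset, c p : ℕ) : ℤ) := by
  rw [Nat.cast_sum, List.sum_toFinset _ (liff_nodup_ptimes J)]

theorem liff_exists_c {J : List (ℕ × ℕ)} {x : List ℤ} (hx : x.length = (ptimes J).length)
    (h0 : ∀ i < (ptimes J).length, 0 ≤ x.getD i 0) :
    ∃ c : ℕ → ℕ, x = (ptimes J).map fun p => (c p : ℤ) := by
  refine ⟨fun p => (x.getD ((ptimes J).idxOf p) 0).toNat, ?_⟩
  refine List.ext_getElem (by simp [hx]) fun i h1 h2 => ?_
  have hi : i < (ptimes J).length := by rwa [hx] at h1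
  simp only [List.getElem_map]
  rw [(liff_nodup_ptimes J).idxOf_getElem i hi, Int.toNat_of_nonneg (h0 i hi),
    List.getD_eq_getElem _ _ h1]

theorem liff_fiber (J : List (ℕ × ℕ)) (S : Finset (Fin J.length)) (f : Fin J.length → ℕ) :
    ∑ j ∈ S, f j = ∑ p ∈ (ptimes J).toFinset, ∑ j ∈ S.filter (fun j => J[j].1 = p), f j :=
  (Finset.sum_fiberwise_of_maps_to (fun j _ => liff_mem_ptimes J j) f).symm

/-- The combinatorial part. -/
theorem liff_good_iff (m k : ℕ) (J : List (ℕ × ℕ)) :
    (∃ x, good m k J x) ↔ ∃ S : Finset (Fin J.length),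
      (∀ t, ∑ j ∈ S, (J[j].1 - (J[j].2 - t)) ≤ m * t) ∧ Sᶜ.card ≤ k := by
  classical
  constructor
  · rintro ⟨x, hlen, hx, hk, ht⟩
    obtain ⟨c, rfl⟩ := liff_exists_c hlen fun i hi => (hx i hi).1
    rw [liff_sum] at hk
    have hc : ∀ p ∈ (ptimes J).toFinset, c p ≤ (liff_idx J p).length := by
      intro p hp
      rw [List.mem_toFinset] at hp
      obtain ⟨i, hi, rfl⟩ := List.mem_iff_getElem.mp hp
      have h1 := (hx i hi).2
      rw [List.getD_eq_getElem _ _ (by simpa using hi), List.getElem_map,
        List.getD_eq_getElem _ _ hi] at h1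
      rw [liff_length_dues] at h1
      exact_mod_cast h1
    set S : Finset (Fin J.length) :=
      Finset.univ.filter (fun j => j ∈ (liff_idx J J[j].1).take (c J[j].1)) with hS
    have hfib : ∀ p, S.filter (fun j => J[j].1 = p) = ((liff_idx J p).take (c p)).toFinset := by
      intro p
      ext j
      rw [hS, Finset.mem_filter, Finset.mem_filter, List.mem_toFinset]
      constructor
      · rintro ⟨⟨_, h1⟩, h2⟩
        rwa [h2] at h1
      · intro h1
        have h2 : J[j].1 = p := liff_mem_idx.mp (List.mem_of_mem_take h1)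
        refine ⟨⟨Finset.mem_univ _, ?_⟩, h2⟩
        rwa [h2]
    have hnd : ∀ p, ((liff_idx J p).take (c p)).Nodup := fun p =>
      (List.take_sublist _ _).nodup (liff_nodup_idx J p)
    have hsum : ∀ f : Fin J.length → ℕ, ∑ j ∈ S, f j =
        ∑ p ∈ (ptimes J).toFinset, (((liff_idx J p).take (c p)).map f).sum := by
      intro f
      rw [liff_fiber]
      refine Finset.sum_congr rfl fun p _ => ?_
      rw [hfib, List.sum_toFinset _ (hnd p)]
    have hload : ∀ t, ∑ j ∈ S, (J[j].1 - (J[j].2 - t)) =
        totalLoad J t ((ptimes J).map fun p => (c p : ℤ)) := by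
      intro t
      rw [liff_totalLoad, hsum]
      exact Finset.sum_congr rfl fun p _ => (liff_load J p t (c p)).symm
    refine ⟨S, ?_, ?_⟩
    · apply MP_1f44d9_lc.cond_of_breakpoints m S (fun j => J[j].1) (fun j => J[j].2)
      · have h1 := ht 0 (by simp)
        rw [← hload 0] at h1
        simpa using h1
      · intro i _
        have h1 := ht J[i].2 (List.mem_cons_of_mem _ (List.mem_map.mpr
          ⟨J[i], List.getElem_mem i.2, rfl⟩))
        rw [← hload] at h1
        exact h1
    · have h1 : S.card = ∑ p ∈ (ptimes J).toFinset, c p := by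
        rw [Finset.card_eq_sum_ones, hsum]
        refine Finset.sum_congr rfl fun p hp => ?_
        have := hc p hp
        simp [this]
      have h2 : Sᶜ.card = J.length - S.card := by
        rw [Finset.card_compl, Fintype.card_fin]
      have h3 : S.card ≤ J.length := by
        have := Finset.card_le_univ S
        rwa [Fintype.card_fin] at this
      rw [← h1] at hk
      omega
  · rintro ⟨S, hS, hk⟩
    set c : ℕ → ℕ := fun p => (S.filter fun j => J[j].1 = p).card with hc
    have hL : ∀ p, ((liff_idx J p).filter fun j => decide (j ∈ S)).toFinset =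
        S.filter fun j => J[j].1 = p := by
      intro p
      ext j
      rw [List.mem_toFinset, List.mem_filter, Finset.mem_filter, liff_mem_idx]
      simp only [decide_eq_true_eq]
      exact and_comm
    have hnd : ∀ p, ((liff_idx J p).filter fun j => decide (j ∈ S)).Nodup := fun p =>
      (liff_nodup_idx J p).filter _
    have hlen : ∀ p, ((liff_idx J p).filter fun j => decide (j ∈ S)).length = c p := by
      intro p
      rw [← List.toFinset_card_of_nodup (hnd p), hL]
    refine ⟨(ptimes J).map fun p => (c p : ℤ), by simp, ?_, ?_, ?_⟩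
    · intro i hi
      rw [List.getD_eq_getElem _ _ (by simpa using hi), List.getElem_map,
        List.getD_eq_getElem _ _ hi]
      refine ⟨Int.natCast_nonneg _, ?_⟩
      rw [liff_length_dues, ← hlen]
      exact_mod_cast List.length_filter_le _ _
    · rw [liff_sum]
      have h1 : S.card = ∑ p ∈ (ptimes J).toFinset, c p := by
        rw [Finset.card_eq_sum_ones, liff_fiber]
        refine Finset.sum_congr rfl fun p _ => ?_
        rw [← Finset.card_eq_sum_ones]
      have h2 : Sᶜ.card = J.length - S.card := by
        rw [Finset.card_compl, Fintype.card_fin]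
      rw [← h1]
      omega
    · intro t _
      rw [liff_totalLoad]
      refine le_trans ?_ (hS t)
      rw [liff_fiber]
      refine Finset.sum_le_sum fun p _ => ?_
      rw [liff_load, ← hlen p, ← hL p, List.sum_toFinset _ (hnd p)]
      refine liff_take_le _ List.filter_sublist ?_
      refine (liff_sorted J p).imp_of_mem fun {a b} ha hb hab => ?_
      have h1 := liff_mem_idx.mp ha
      have h2 := liff_mem_idx.mp hb
      rw [h1, h2]
      have : J[b].2 ≤ J[a].2 := hab
      omega

/-! ### Schedules -/

/-- The instance with weights `1`. -/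
def liff_inst (I : Input) : MP_1f44d9_lc.Inst where
  n := I.jobs.length
  m := I.m
  hm := I.2.1
  p := fun j => I.jobs[j].1
  d := fun j => I.jobs[j].2
  w := fun _ => 1

/-- Forget that there are finitely many changes. -/
def liff_forget (I : Input) (σ : Schedule I.m I.jobs) :
    MP_1f44d9_lc.Schedule (liff_inst I) where
  on := σ.on
  measurable_on := σ.measurable_on
  idle_before := σ.idle_before
  idle_after := σ.idle_after
  no_parallel := σ.no_parallel
  processed := σ.processed

/-- Integral schedules have finitely many changes. -/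
noncomputable def liff_back (I : Input) (σ : MP_1f44d9_lc.Schedule (liff_inst I))
    (hσ : σ.Integral) : Schedule I.m I.jobs where
  on := σ.on
  measurable_on := σ.measurable_on
  idle_before := σ.idle_before
  idle_after := σ.idle_after
  changes := by
    obtain ⟨T, hT⟩ := σ.idle_after
    set N : ℕ := ⌈T⌉₊ + 1 with hN
    have hTN : T < N := by
      have := Nat.le_ceil T
      rw [hN]
      push_cast
      linarith
    refine ⟨(Finset.range (N + 1)).image (fun n : ℕ => (n : ℝ)), ?_⟩
    intro i s t hst hF
    rcases lt_or_ge s 0 with hs | hs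
    · rcases lt_or_ge t 0 with ht | ht
      · rw [σ.idle_before i s hs, σ.idle_before i t ht]
      · exfalso
        rcases hF 0 (Finset.mem_image.mpr ⟨0, by simp, by simp⟩) with h | h <;> linarith
    · have ht : 0 ≤ t := hs.trans hst
      by_cases hfl : ⌊s⌋₊ = ⌊t⌋₊
      · have h1 := hσ i s hs
        have h2 := hσ i t ht
        rw [h1, h2, hfl]
      · have hlt : ⌊s⌋₊ < ⌊t⌋₊ := lt_of_le_of_ne (Nat.floor_mono hst) hfl
        have h1 : s < ((⌊s⌋₊ + 1 : ℕ) : ℝ) := by push_cast; exact Nat.lt_floor_add_one s
        have h2 : ((⌊s⌋₊ + 1 : ℕ) : ℝ) ≤ t := by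
          refine le_trans ?_ (Nat.floor_le ht)
          exact_mod_cast hlt
        by_cases hN' : ⌊s⌋₊ + 1 ≤ N
        · exfalso
          rcases hF ((⌊s⌋₊ + 1 : ℕ) : ℝ) (Finset.mem_image.mpr ⟨⌊s⌋₊ + 1, by
            rw [Finset.mem_range]; omega, rfl⟩) with h | h <;> linarith
        · have h3 : (N : ℝ) ≤ s := by
            refine le_trans ?_ (Nat.floor_le hs)
            exact_mod_cast (by omega : N ≤ ⌊s⌋₊)
          rw [hT i s (by linarith), hT i t (by linarith)]
  no_parallel := σ.no_parallel
  processed := σ.processed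

theorem liff_mand (I : Input) (j : Fin I.jobs.length) (t : ℕ) :
    MP_1f44d9_lc.mand (liff_inst I) j t = I.jobs[j].1 - (I.jobs[j].2 - t) := rfl

theorem late_iff (I : Input) : I ∈ LateJobs ↔ ∃ x, good I.m I.k I.jobs x := by
  classical
  rw [liff_good_iff]
  constructor
  · rintro ⟨σ, hσ⟩
    refine ⟨Finset.univ.filter (fun j => σ.completion j ≤ (I.jobs[j].2 : ℝ)), ?_, ?_⟩
    · intro t
      exact (liff_forget I σ).necessary (Finset.univ.filter (fun j => σ.completion j ≤
        (I.jobs[j].2 : ℝ))) (fun j hj => (Finset.mem_filter.mp hj).2) t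
    · refine le_trans (le_of_eq ?_) hσ
      unfold Schedule.late
      congr 1
      ext j
      simp
  · rintro ⟨S, hS, hk⟩
    obtain ⟨σ, hint, hσ⟩ := MP_1f44d9_lc.sufficient (liff_inst I) S hS
    refine ⟨liff_back I σ hint, le_trans ?_ hk⟩
    unfold Schedule.late
    apply Finset.card_le_card
    intro j hj
    rw [Finset.mem_filter] at hj
    rw [Finset.mem_compl]
    intro hjS
    have h1 : σ.completion j ≤ (I.jobs[j].2 : ℝ) := hσ j hjS
    exact absurd hj.2 (not_lt.mpr h1)

end Pool.Agent.Lib.PmtnHard
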