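import Pool.Agent.Lib.MP_1f44d9_lc.Late.Defs
import Pool.Agent.Lib.UBox.Basic

/-!
# The separation oracle is correct
-/

namespace Pool.Agent.Lib.PmtnHard

open Pool.Agent.Lib.PolyTime Pool.Agent.Lib.UBox

theorem pbar_eq (I : Input) : I.pbar = (ptimes I.jobs).length := by
  unfold Input.pbar ptimes
  rw [List.card_toFinset]

/-! ## Lists and sums -/

private theorem oracle_zip_sum {α β γ : Type*} [AddCommMonoid γ] (f : α → β → γ) (a : α) (b : β) :
    ∀ (n : ℕ) (l : List α) (l' : List β), l.length = n → l'.length = n →
      (List.zipWith f l l').sum = ∑ i ∈ Finset.range n, f (l.getD i a) (l'.getD i b) := by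
  intro n
  induction n with
  | zero =>
    intro l l' hl hl'
    rw [List.length_eq_zero_iff] at hl hl'
    subst hl hl'
    simp
  | succ n ih =>
    intro l l' hl hl'
    match l, l', hl, hl' with
    | x :: l, y :: l', hl, hl' =>
      rw [List.zipWith_cons_cons, List.sum_cons, Finset.sum_range_succ',
        ih l l' (by simpa using hl) (by simpa using hl')]
      simp [add_comm]

private theorem oracle_sum (l : List ℤ) : l.sum = ∑ i ∈ Finset.range l.length, l.getD i 0 := by
  induction l with
  | nil => simp
  | cons x l ih =>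
    rw [List.sum_cons, List.length_cons, Finset.sum_range_succ', ih]
    simp [add_comm]

private theorem oracle_mem {l : List ℤ} {a : ℤ} (h : a ∈ l) : ∃ i < l.length, l.getD i 0 = a := by
  obtain ⟨i, hi, rfl⟩ := List.getElem_of_mem h
  exact ⟨i, hi, List.getD_eq_getElem _ _ hi⟩

private theorem oracle_getD_mem {l : List ℤ} {i : ℕ} (h : i < l.length) : l.getD i 0 ∈ l := by
  rw [List.getD_eq_getElem _ _ h]
  exact List.getElem_mem h

/-! ## Convexity -/

private theorem oracle_convex (w : ℕ → ℕ) (hw : Monotone w) (x y : ℕ) :
    (∑ i ∈ Finset.range x, (w i : ℤ)) + (if x = 0 then 0 else (w (x - 1) : ℤ)) * ((y : ℤ) - x) ≤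
      ∑ i ∈ Finset.range y, (w i : ℤ) := by
  rcases Nat.eq_zero_or_pos x with rfl | hx
  · simp only [Finset.range_zero, Finset.sum_empty, if_true, zero_mul, add_zero]
    exact Finset.sum_nonneg fun i _ => by positivity
  · rw [if_neg hx.ne']
    rcases le_total x y with h | h
    · have h1 : ∑ i ∈ Finset.Ico x y, (w i : ℤ) =
          ∑ i ∈ Finset.range y, (w i : ℤ) - ∑ i ∈ Finset.range x, (w i : ℤ) :=
        Finset.sum_Ico_eq_sub _ h
      have h2 : (Finset.Ico x y).card • (w (x - 1) : ℤ) ≤ ∑ i ∈ Finset.Ico x y, (w i : ℤ) := by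
        apply Finset.card_nsmul_le_sum
        intro i hi
        have h3 := (Finset.mem_Ico.1 hi).1
        exact_mod_cast hw (by omega)
      rw [Nat.card_Ico, nsmul_eq_mul, Nat.cast_sub h] at h2
      linarith [mul_comm ((y : ℤ) - x) (w (x - 1) : ℤ)]
    · have h1 : ∑ i ∈ Finset.Ico y x, (w i : ℤ) =
          ∑ i ∈ Finset.range x, (w i : ℤ) - ∑ i ∈ Finset.range y, (w i : ℤ) :=
        Finset.sum_Ico_eq_sub _ h
      have h2 : ∑ i ∈ Finset.Ico y x, (w i : ℤ) ≤ (Finset.Ico y x).card • (w (x - 1) : ℤ) := by
        apply Finset.sum_le_card_nsmul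
        intro i hi
        have h3 := (Finset.mem_Ico.1 hi).2
        exact_mod_cast hw (by omega)
      rw [Nat.card_Ico, nsmul_eq_mul, Nat.cast_sub h] at h2
      linarith [mul_comm ((x : ℤ) - y) (w (x - 1) : ℤ), mul_neg (w (x - 1) : ℤ) ((x : ℤ) - y),
        neg_sub (x : ℤ) (y : ℤ)]

private theorem oracle_antitone (J : List (ℕ × ℕ)) (p : ℕ) :
    Antitone fun i => (dues J p).getD i 0 := by
  intro i j hij
  show (dues J p).getD j 0 ≤ (dues J p).getD i 0
  by_cases hj : j < (dues J p).length
  · have hi : i < (dues J p).length := by omega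
    rw [List.getD_eq_getElem _ _ hj, List.getD_eq_getElem _ _ hi]
    rcases hij.eq_or_lt with rfl | hij
    · exact le_rfl
    · have h1 : (dues J p).Pairwise (· ≥ ·) := List.pairwise_insertionSort _ _
      exact List.pairwise_iff_getElem.1 h1 i j hi hj hij
  · rw [List.getD_eq_default _ _ (by omega)]
    exact Nat.zero_le _

private theorem oracle_load (J : List (ℕ × ℕ)) (p t x : ℕ) (hx : x ≤ (dues J p).length) :
    load J p t x = ∑ i ∈ Finset.range x, (p - ((dues J p).getD i 0 - t)) := by
  unfold load
  induction x with
  | zero => simp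
  | succ x ih =>
    have h1 : x < (dues J p).length := by omega
    rw [List.take_add_one, List.map_append, List.sum_append, ih (by omega), Finset.sum_range_succ,
      List.getElem?_eq_getElem h1, List.getD_eq_getElem _ _ h1]
    simp

private theorem oracle_load_convex (J : List (ℕ × ℕ)) (p t x y : ℕ) (hx : x ≤ (dues J p).length)
    (hy : y ≤ (dues J p).length) :
    (load J p t x : ℤ) + (slope J p t x : ℤ) * ((y : ℤ) - x) ≤ (load J p t y : ℤ) := by
  have hw : Monotone fun i => p - ((dues J p).getD i 0 - t) := by
    intro i j hij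
    have := oracle_antitone J p hij
    simp only at this ⊢
    omega
  have h := oracle_convex _ hw x y
  rw [oracle_load J p t x hx, oracle_load J p t y hy]
  push_cast
  have h1 : (slope J p t x : ℤ) =
      if x = 0 then 0 else ((p - ((dues J p).getD (x - 1) 0 - t) : ℕ) : ℤ) := by
    unfold slope
    split_ifs <;> simp
  rw [h1]
  exact h

/-! ## The length of the word -/

private theorem oracle_natWord (n : ℕ) : n < 2 ^ (Input.natWord n).length := by
  have h1 : n < 2 ^ n.size := Nat.lt_size_self n
  have h2 : n.size ≤ (Input.natWord n).length := by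
    unfold Input.natWord
    rw [List.length_append, List.length_flatMap, ← Nat.size_eq_bits_len]
    simp
    omega
  exact h1.trans_le (Nat.pow_le_pow_right (by norm_num) h2)

private theorem oracle_ptime (I : Input) {p : ℕ} (hp : p ∈ ptimes I.jobs) :
    p < 2 ^ I.word.length := by
  unfold ptimes at hp
  rw [List.mem_dedup, List.mem_map] at hp
  obtain ⟨j, hj, rfl⟩ := hp
  refine (oracle_natWord j.1).trans_le (Nat.pow_le_pow_right (by norm_num) ?_)
  obtain ⟨s, t, hst⟩ := List.append_of_mem hj
  unfold Input.word
  rw [hst]
  simp only [List.length_append, List.flatMap_append, List.flatMap_cons]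
  omega

private theorem oracle_slope_le (J : List (ℕ × ℕ)) (p t x : ℕ) : slope J p t x ≤ p := by
  unfold slope
  split_ifs <;> omega

private theorem oracle_dues_len (J : List (ℕ × ℕ)) (p : ℕ) : (dues J p).length ≤ J.length := by
  unfold dues
  rw [List.length_insertionSort, List.length_map]
  exact List.length_filter_le _ _

/-! ## The oracle -/

private theorem oracle_zip_mem {α β γ : Type*} {f : α → β → γ} {l : List α} {l' : List β} {c : γ}
    (h : c ∈ List.zipWith f l l') : ∃ a ∈ l, ∃ b ∈ l', f a b = c := by
  rw [List.mem_iff_getElem] at h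
  obtain ⟨i, hi, rfl⟩ := h
  rw [List.length_zipWith] at hi
  refine ⟨l[i], List.getElem_mem _, l'[i], List.getElem_mem _, ?_⟩
  rw [List.getElem_zipWith]

theorem isOracle_late (I : Input) : IsOracle I.pbar I.jobs.length I.word.length
    (orcL I.m I.k I.jobs) {x | good I.m I.k I.jobs x} := by
  rw [pbar_eq]
  set J := I.jobs with hJ
  set m := I.m
  set k := I.k
  set n := (ptimes J).length with hn
  -- the answers
  have hcase : ∀ x α, x.length = n → orcL m k J x = some α →
      (∃ i < n, ((dues J ((ptimes J).getD i 0)).length : ℤ) < x.getD i 0 ∧ α = unitv n i) ∨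
      ((∀ i < n, x.getD i 0 ≤ (dues J ((ptimes J).getD i 0)).length) ∧
        ((x.sum + k < J.length ∧ α = List.replicate n (-1)) ∨
        ∃ t ∈ 0 :: J.map Prod.snd, m * t < totalLoad J t x ∧
          α = List.zipWith (fun p a => (slope J p t a.toNat : ℤ)) (ptimes J) x)) := by
    intro x α hx h
    unfold orcL at h
    rw [← hn] at h
    cases h1 : (List.range n).find? fun i =>
      decide (((dues J ((ptimes J).getD i 0)).length : ℤ) < x.getD i 0) with
    | some i =>
      rw [h1] at h
      left
      refine ⟨i, List.mem_range.1 (List.mem_of_find?_eq_some h1), ?_, ?_⟩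
      · simpa using List.find?_some h1
      · simpa using h.symm
    | none =>
      rw [h1] at h
      right
      rw [List.find?_eq_none] at h1
      refine ⟨fun i hi => ?_, ?_⟩
      · have h2 := h1 i (List.mem_range.2 hi)
        simpa using h2
      · simp only at h
        split_ifs at h with h3
        · left
          exact ⟨h3, by simpa using h.symm⟩
        · right
          cases h4 : (0 :: J.map Prod.snd).find? fun t => decide (m * t < totalLoad J t x) with
          | some t =>
            rw [h4] at h
            refine ⟨t, List.mem_of_find?_eq_some h4, ?_, ?_⟩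
            · simpa using List.find?_some h4
            · simpa using h.symm
          | none =>
            rw [h4] at h
            simp at h
  refine ⟨?_, ?_, ?_, ?_, ?_⟩
  · -- sub
    rintro x ⟨h1, h2, -, -⟩
    refine ⟨h1, fun a ha => ?_⟩
    obtain ⟨i, hi, rfl⟩ := oracle_mem ha
    have h3 := h2 i (by omega)
    have h4 := oracle_dues_len J ((ptimes J).getD i 0)
    refine ⟨h3.1, h3.2.trans ?_⟩
    exact_mod_cast h4
  · -- none_iff
    rintro x ⟨hx, hbox⟩
    show orcL m k J x = none ↔ good m k J x
    constructor
    · intro h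
      unfold orcL at h
      rw [← hn] at h
      cases h1 : (List.range n).find? fun i =>
        decide (((dues J ((ptimes J).getD i 0)).length : ℤ) < x.getD i 0) with
      | some i =>
        rw [h1] at h
        simp at h
      | none =>
        rw [h1] at h
        rw [List.find?_eq_none] at h1
        simp only at h
        split_ifs at h with h3
        cases h4 : (0 :: J.map Prod.snd).find? fun t => decide (m * t < totalLoad J t x) with
        | some t =>
          rw [h4] at h
          simp at h
        | none =>
          rw [List.find?_eq_none] at h4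
          refine ⟨hx, fun i hi => ⟨?_, ?_⟩, by omega, fun t ht => ?_⟩
          · exact (hbox _ (oracle_getD_mem (by omega))).1
          · have h2 := h1 i (List.mem_range.2 hi)
            simpa using h2
          · have h5 := h4 t ht
            simpa using h5
    · rintro ⟨h1, h2, h3, h4⟩
      cases h : orcL m k J x with
      | none => rfl
      | some α =>
        exfalso
        rcases hcase x α hx h with ⟨i, hi, h5, -⟩ | ⟨-, ⟨h5, -⟩ | ⟨t, ht, h5, -⟩⟩
        · have := (h2 i hi).2
          omega
        · omega
        · have := h4 t ht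
          omega
  · -- some_len
    rintro x α ⟨hx, hbox⟩ h
    rcases hcase x α hx h with ⟨i, hi, h5, rfl⟩ | ⟨-, ⟨h5, rfl⟩ | ⟨t, ht, h5, rfl⟩⟩
    · simp
    · simp
    · rw [List.length_zipWith, hx, ← hn, min_self]
  · -- some_ht
    rintro x α ⟨hx, hbox⟩ h c hc
    have h1 : (1 : ℤ) ≤ 2 ^ I.word.length := one_le_pow₀ (by norm_num)
    rcases hcase x α hx h with ⟨i, hi, h5, rfl⟩ | ⟨-, ⟨h5, rfl⟩ | ⟨t, ht, h5, rfl⟩⟩
    · unfold unitv at hc
      rw [List.mem_map] at hc
      obtain ⟨j, -, rfl⟩ := hc
      split_ifs
      · simpa using h1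
      · simp
    · rw [List.mem_replicate] at hc
      rw [hc.2]
      simpa using h1
    · obtain ⟨p, hp, a, -, rfl⟩ := oracle_zip_mem hc
      have h6 := oracle_slope_le J p t a.toNat
      have h7 := oracle_ptime I hp
      rw [abs_of_nonneg (by positivity)]
      exact_mod_cast (h6.trans h7.le)
  · -- some_cut
    rintro x α ⟨hx, hbox⟩ h y ⟨hy1, hy2, hy3, hy4⟩
    have hy1' : y.length = n := hy1
    have hdot : ∀ u v : List ℤ, u.length = n → v.length = n →
        dot u v = ∑ i ∈ Finset.range n, u.getD i 0 * v.getD i 0 := by
      intro u v hu hv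
      exact oracle_zip_sum (fun a b : ℤ => a * b) 0 0 n u v hu hv
    rcases hcase x α hx h with ⟨i, hi, h5, rfl⟩ | ⟨h0, ⟨h5, rfl⟩ | ⟨t, ht, h5, rfl⟩⟩
    · have h6 : ∀ v : List ℤ, v.length = n → dot (unitv n i) v = v.getD i 0 := by
        intro v hv
        rw [hdot _ _ (by simp) hv, Finset.sum_eq_single i]
        · unfold unitv
          rw [List.getD_eq_getElem _ _ (by simpa using hi)]
          simp
        · intro j hj hji
          unfold unitv
          rw [List.getD_eq_getElem _ _ (by simpa using Finset.mem_range.1 hj)]
          simp [hji]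
        · intro h7
          exact absurd (Finset.mem_range.2 hi) h7
      rw [h6 x hx, h6 y hy1']
      have := (hy2 i hi).2
      omega
    · have h6 : ∀ v : List ℤ, v.length = n → dot (List.replicate n (-1)) v = - v.sum := by
        intro v hv
        rw [hdot _ _ (by simp) hv, oracle_sum v, hv, ← Finset.sum_neg_distrib]
        apply Finset.sum_congr rfl
        intro j hj
        rw [List.getD_eq_getElem _ _ (by simpa using Finset.mem_range.1 hj)]
        simp
      rw [h6 x hx, h6 y hy1']
      omega
    · have hlen : (List.zipWith (fun p a => (slope J p t a.toNat : ℤ)) (ptimes J) x).length = n := by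
        rw [List.length_zipWith, hx, ← hn, min_self]
      have hget : ∀ i < n,
          (List.zipWith (fun p a => (slope J p t a.toNat : ℤ)) (ptimes J) x).getD i 0 =
          (slope J ((ptimes J).getD i 0) t (x.getD i 0).toNat : ℤ) := by
        intro i hi
        rw [List.getD_eq_getElem _ _ (by omega), List.getElem_zipWith,
          List.getD_eq_getElem _ _ (by omega), List.getD_eq_getElem _ _ (by omega)]
      have htot : ∀ v : List ℤ, v.length = n → (totalLoad J t v : ℤ) =
          ∑ i ∈ Finset.range n, (load J ((ptimes J).getD i 0) t (v.getD i 0).toNat : ℤ) := by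
        intro v hv
        unfold totalLoad
        rw [oracle_zip_sum (fun p a => load J p t a.toNat) 0 0 n _ _ hn.symm hv]
        push_cast
        rfl
      rw [hdot _ _ hlen hx, hdot _ _ hlen hy1']
      have h6 : ∑ i ∈ Finset.range n,
          ((List.zipWith (fun p a => (slope J p t a.toNat : ℤ)) (ptimes J) x).getD i 0 * y.getD i 0 -
          (List.zipWith (fun p a => (slope J p t a.toNat : ℤ)) (ptimes J) x).getD i 0 * x.getD i 0) ≤
          ∑ i ∈ Finset.range n,
          ((load J ((ptimes J).getD i 0) t (y.getD i 0).toNat : ℤ) -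
            (load J ((ptimes J).getD i 0) t (x.getD i 0).toNat : ℤ)) := by
        apply Finset.sum_le_sum
        intro i hi
        have hi' := Finset.mem_range.1 hi
        rw [hget i hi']
        have h7 : 0 ≤ x.getD i 0 := (hbox _ (oracle_getD_mem (by omega))).1
        have h8 := h0 i hi'
        have h9 := hy2 i hi'
        have h10 := oracle_load_convex J ((ptimes J).getD i 0) t (x.getD i 0).toNat
          (y.getD i 0).toNat (by omega) (by omega)
        rw [Int.toNat_of_nonneg h7, Int.toNat_of_nonneg h9.1] at h10
        linarith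
      rw [Finset.sum_sub_distrib, Finset.sum_sub_distrib, ← htot y hy1', ← htot x hx] at h6
      have h7 := hy4 t ht
      have h8 : (totalLoad J t y : ℤ) ≤ (m * t : ℕ) := by exact_mod_cast h7
      have h9 : ((m * t : ℕ) : ℤ) < totalLoad J t x := by exact_mod_cast h5
      linarith

end Pool.Agent.Lib.PmtnHard
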