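import Pool.Agent.Lib.MP_1f44d9_lc.Hard.Statement
import Pool.Agent.Lib.PolyTime.Emit
import Pool.Agent.Lib.PolyTime.NatBin

/-!
# From padding to FPT time
-/

set_option linter.unusedSimpArgs false

namespace Pool.Agent.Lib.PmtnHard

open Turing Function Pool.Agent.Lib.PolyTime

section Bridge

variable {I O : Type}

open Polynomial in
/-- From a program with a general time bound to a machine. -/
theorem tm2_time_each [Finite I] [Finite O] {α β : Type} {α' β' : Type*} [TEnc α'] [TEnc β']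
    {ea : α → List I} {eb : β → List O} {f : α → β} {i : α → α'} {w : β' → List O} {F : α' → β'}
    {S N : α' → ℕ} (hin : InOK O ea i) (hF : InTime S N F) (hout : OutOK I w)
    (h : ∀ a, w (F (i a)) = eb (f a)) :
    ∃ (P : Polynomial ℕ) (c : TM2ComputableAux I O), ∀ a : α,
      Nonempty (TM2OutputsInTime c.tm (List.map c.inputAlphabet.invFun (ea a))
        (some (List.map c.outputAlphabet.invFun (eb (f a))))
        (P.eval ((ea a).length + S (i a)) * (N (i a) + 1))) := by
  cases nonempty_fintype I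
  cases nonempty_fintype O
  obtain ⟨⟨Qi, hQi⟩, pi, ki, Pi, hbi, hri⟩ := hin
  obtain ⟨⟨Qo, hQo⟩, po, ko, Po, hbo, hro⟩ := hout
  obtain ⟨⟨Q, hQ⟩, hF⟩ := hF
  obtain ⟨pF, kF, PF, hkF, hbF, hrF⟩ := hF (Al I O) (.inl false) (.inl true) (by simp)
  obtain ⟨R, hR⟩ : ∃ R, R = max (max (max ki ko) kF) 3 := ⟨_, rfl⟩
  have : NeZero R := ⟨by omega⟩
  let p : Prog (Al I O) := .seq pi (.seq pF po)
  have hp : Below p R := ⟨hbi.mono (by omega), hbF.mono (by omega), hbo.mono (by omega)⟩
  let PP : Polynomial ℕ := C 10 * (1 + X + Pi + PF + Po.comp Q + Qo.comp Q)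
  refine ⟨PP, ⟨finalTM R p, Equiv.refl _, Equiv.refl _⟩, fun a => ?_⟩
  obtain ⟨X, hX⟩ : ∃ X, X = (ea a).length + S (i a) := ⟨_, rfl⟩
  have hX1 : (ea a).length ≤ X := by omega
  have hX2 : S (i a) ≤ X := by omega
  rw [← hX]
  have key : ∃ n ≤ PP.eval X * (N (i a) + 1),
      Steps (finalCode R p) n (initList (finalTM R p) (ea a))
        (haltList (finalTM R p) (eb (f a))) := by
    have hrun : Run p (update (fun _ => []) 1 ((ea a).map (fun a => .inr (.inl a))).reverse)
        (update (fun _ => []) 2 ((eb (f a)).reverse.map (fun a => .inr (.inr a))))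
        (Pi.eval (ea a).length + (PF.eval (S (i a)) * (N (i a) + 1) +
          Po.eval (sz (F (i a))))) := by
      have r2 := hrF (i a) (update (fun _ => []) 0 (wd (.inl false) (.inl true) (i a)))
        (update_self _ _ _) (fun j hj _ => by rw [update_of_ne hj.ne'])
      rw [update_idem] at r2
      have r3 := hro (F (i a))
      rw [h a] at r3
      exact (hri a).seq (r2.seq r3)
    obtain ⟨v1, S1, a1, a2, a3, a4⟩ := steps_pro (N := R) (by omega) p (ea a) (none, none)
      (initList (finalTM R p) (ea a)).stk (fun _ => []) rfl (fun i => rfl)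
    obtain ⟨t, ht, hexec⟩ := hrun
    have a2' : S1 .out = ([] : List O) := a2.trans rfl
    obtain ⟨v2, S2, b1, b2, b3, b4, b5⟩ := exec_sim (I := I) (O := O) (N := R) hexec
      hp (finalCode R p) (fun l => .inr (.inl l))
      (.inr (.inr (some none))) (fun l => rfl) v1 S1 (by simpa using a3)
    obtain ⟨v3, S3, c1, c2, c3, c4⟩ := steps_epi (N := R) (by omega)
      p (eb (f a)).reverse v2 S2 _ [] (b4.trans a2') b1 (by simp)
    refine ⟨(2 * (ea a).length + 1) + (t + ((2 * (eb (f a)).reverse.length + 1) + 1)), ?_,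
      a4.trans (b5.trans (c4.trans (Steps.one ?_)))⟩
    · simp only [PP, eval_add, eval_one, eval_mul, eval_X, eval_C, eval_comp, List.length_reverse]
      have e0 := hX1
      have e2 := (hQ (i a)).trans (peval_mono Q hX2)
      have e3 := hQo (F (i a))
      rw [h a] at e3
      have e4 := e3.trans (peval_mono Qo e2)
      have e5 := peval_mono PF hX2
      have e6 := peval_mono Po e2
      have e7 := peval_mono Pi e0
      have e9 : PF.eval (S (i a)) * (N (i a) + 1) ≤
        PF.eval X * (N (i a) + 1) :=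
        Nat.mul_le_mul_right _ e5
      have e10 : 10 * (1 + X + Pi.eval X +
          Po.eval (Q.eval X) + Qo.eval (Q.eval X)) +
          PF.eval X * (N (i a) + 1) ≤
          10 * (1 + X + Pi.eval X + PF.eval X +
          Po.eval (Q.eval X) + Qo.eval (Q.eval X)) *
            (N (i a) + 1) := by
        have e11 : 10 * (1 + X + Pi.eval X +
          Po.eval (Q.eval X) + Qo.eval (Q.eval X)) ≤
          10 * (1 + X + Pi.eval X +
          Po.eval (Q.eval X) + Qo.eval (Q.eval X)) *
            (N (i a) + 1) := Nat.le_mul_of_pos_right _ (by omega)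
        nlinarith [Nat.zero_le (PF.eval X * (N (i a) + 1))]
      omega
    · have e0 : S3 = (haltList (finalTM R p) (eb (f a))).stk := by
        funext r
        cases r with
        | inp => exact (c1.trans (b3.trans a1)).trans rfl
        | out =>
          refine c2.trans ?_
          rw [List.reverse_reverse, List.append_nil]
          rfl
        | reg i =>
          refine (c3 i).trans ?_
          rw [update_idem]
          have : update (fun _ => []) 2 ([] : List (Al I O)) = fun _ => [] := by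
            funext j
            simp only [update_apply]
            split_ifs <;> rfl
          rw [this]
          rfl
      have e1 : TM2.step (finalCode R p) ⟨some (.inr (.inr none)), v3, S3⟩
          = some ⟨none, (none, none), S3⟩ := rfl
      rw [e1, e0]
      rfl
  obtain ⟨n, hn, hs⟩ := Classical.indefiniteDescription _ key
  have e1 : List.map (Equiv.refl I).invFun (ea a) = ea a := List.map_id _
  have e2 : List.map (Equiv.refl O).invFun (eb (f a)) = eb (f a) := List.map_id _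
  refine ⟨⟨⟨n, ?_⟩, hn⟩⟩
  have e3 : ∀ (u : List I) (w : List O), u = ea a → w = eb (f a) →
    (flip bind (finalTM R p).step)^[n] (some (initList (finalTM R p) u)) =
      Option.map (haltList (finalTM R p)) (some w) := by
    rintro _ _ rfl rfl
    exact hs
  exact e3 _ _ e1 e2


end Bridge

theorem time_poly_le (P : Polynomial ℕ) : ∃ A d : ℕ, ∀ x, P.eval x ≤ A * (x + 1) ^ d := by
  refine ⟨∑ i ∈ Finset.range (P.natDegree + 1), P.coeff i, P.natDegree, fun x => ?_⟩
  rw [Polynomial.eval_eq_sum_range, Finset.sum_mul]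
  refine Finset.sum_le_sum fun i hi => Nat.mul_le_mul_left _ ?_
  rw [Finset.mem_range] at hi
  exact (Nat.pow_le_pow_left (Nat.le_succ x) i).trans (Nat.pow_le_pow_right (by omega) (by omega))

theorem time_computable (B C D : ℕ) : Computable (fun k : ℕ => B * (2 ^ (k + 2) ^ C) ^ D) := by
  have hp : Primrec₂ (fun a b : ℕ => a ^ b) := Primrec₂.unpaired'.1 Nat.Primrec.pow
  have h1 : Primrec (fun k : ℕ => (k + 2) ^ C) :=
    hp.comp (Primrec.nat_add.comp Primrec.id (Primrec.const 2)) (Primrec.const C)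
  have h2 : Primrec (fun k : ℕ => 2 ^ (k + 2) ^ C) := hp.comp (Primrec.const 2) h1
  have h3 : Primrec (fun k : ℕ => (2 ^ (k + 2) ^ C) ^ D) := hp.comp h2 (Primrec.const D)
  exact (Primrec.nat_mul.comp (Primrec.const B) h3).to_comp

theorem fpt_of_pad {α : Type} (e : α → List Bool) (L : Set α) (κ : α → ℕ)
    {D : List Bool × ℕ → Bool} (hD : PolyF D) {n : List Bool → ℕ} (hn : PolyF n)
    (hc : ∀ a, D (e a, 2 ^ n (e a)) = true ↔ a ∈ L) (C : ℕ)
    (hb : ∀ a, n (e a) ≤ (κ a + 2) ^ C + C * (Nat.log 2 ((e a).length + 2) + 1)) :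
    ∃ (f : ℕ → ℕ) (c : ℕ), Computable f ∧
      DecidedInTime e L fun a => f (κ a) * ((e a).length + 1) ^ c := by
  classical
  obtain ⟨P, c, hM⟩ := tm2_time_each (ea := e) (eb := Computability.encodeBool)
    (f := fun a => decide (a ∈ L)) (i := e)
    (InOK.list Bool e e enc (fun _ => rfl)) (InTime.pad hn hD) (OutOK.bool Bool) (fun a => by
      have : D (e a, 2 ^ n (e a)) = decide (a ∈ L) := by
        rw [Bool.eq_iff_iff, hc a, decide_eq_true_iff]
      show [D (e a, 2 ^ n (e a))] = _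
      rw [this]
      rfl)
  obtain ⟨A, d, hA⟩ := time_poly_le P
  refine ⟨fun k => (A * 2 ^ (d + 1) * 4 ^ ((C + 1) * (d + 1))) * (2 ^ (k + 2) ^ C) ^ (d + 1),
    (C + 1) * (d + 1), time_computable _ _ _, c, fun a => ?_⟩
  obtain ⟨T⟩ := hM a
  refine ⟨⟨T.toEvalsTo, T.steps_le_m.trans ?_⟩⟩
  obtain ⟨l, hl⟩ : ∃ l, l = (e a).length := ⟨_, rfl⟩
  obtain ⟨m, hm⟩ : ∃ m, m = n (e a) := ⟨_, rfl⟩
  obtain ⟨K, hK⟩ : ∃ K, K = 2 ^ (κ a + 2) ^ C := ⟨_, rfl⟩
  have hK1 : 1 ≤ K := by rw [hK]; exact Nat.one_le_two_pow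
  have h1 : sz (e a) ≤ 2 * l := by rw [hl]; exact sz_bits_le (e a)
  have h2 : 2 ^ m ≤ K * (2 * (l + 2)) ^ C := by
    have h3 := hb a
    rw [← hl, ← hm] at h3
    calc 2 ^ m ≤ 2 ^ ((κ a + 2) ^ C + C * (Nat.log 2 (l + 2) + 1)) :=
          Nat.pow_le_pow_right (by omega) h3
      _ = K * (2 ^ Nat.log 2 (l + 2) * 2) ^ C := by
          rw [pow_add, hK, mul_comm C, pow_mul, pow_succ]
      _ ≤ K * ((l + 2) * 2) ^ C := by
          gcongr
          exact Nat.pow_log_le_self 2 (by omega)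
      _ = _ := by rw [mul_comm (l + 2) 2]
  have h4 : m + 1 ≤ 2 ^ m := Nat.lt_two_pow_self
  obtain ⟨X, hX⟩ : ∃ X, X = l + (sz (e a) + 2 ^ m) := ⟨_, rfl⟩
  have h5 : X + 1 ≤ 2 * K * (4 * (l + 1)) ^ (C + 1) := by
    have h6 : 4 * (l + 1) ≤ (4 * (l + 1)) ^ (C + 1) := by
      rw [pow_succ]
      exact Nat.le_mul_of_pos_left _ (by positivity)
    have h7 : (2 * (l + 2)) ^ C ≤ (4 * (l + 1)) ^ (C + 1) :=
      (Nat.pow_le_pow_left (by omega) C).trans (Nat.pow_le_pow_right (by omega) (by omega))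
    have h8 : K * (2 * (l + 2)) ^ C ≤ K * (4 * (l + 1)) ^ (C + 1) := Nat.mul_le_mul_left _ h7
    have h9 : (4 * (l + 1)) ^ (C + 1) ≤ K * (4 * (l + 1)) ^ (C + 1) :=
      Nat.le_mul_of_pos_left _ hK1
    calc X + 1 ≤ 4 * (l + 1) + 2 ^ m := by omega
      _ ≤ K * (4 * (l + 1)) ^ (C + 1) + K * (4 * (l + 1)) ^ (C + 1) := by omega
      _ = _ := by ring
  show P.eval ((e a).length + (sz (e a) + 2 ^ n (e a))) * (n (e a) + 1) ≤
    (A * 2 ^ (d + 1) * 4 ^ ((C + 1) * (d + 1))) * (2 ^ (κ a + 2) ^ C) ^ (d + 1) *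
      ((e a).length + 1) ^ ((C + 1) * (d + 1))
  rw [← hl, ← hm, ← hX, ← hK]
  calc P.eval X * (m + 1) ≤ (A * (X + 1) ^ d) * (X + 1) := Nat.mul_le_mul (hA X) (by omega)
    _ = A * (X + 1) ^ (d + 1) := by ring
    _ ≤ A * (2 * K * (4 * (l + 1)) ^ (C + 1)) ^ (d + 1) := by gcongr
    _ = (A * 2 ^ (d + 1) * 4 ^ ((C + 1) * (d + 1))) * K ^ (d + 1) * (l + 1) ^ ((C + 1) * (d + 1)) := by
        rw [mul_pow (2 * K), mul_pow 2 K, ← pow_mul, mul_pow 4 (l + 1)]
        ring

end Pool.Agent.Lib.PmtnHard
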