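import Pool.Agent.Lib.UBox.Solve
import Pool.Agent.Lib.UBox.PF
import Pool.Agent.Lib.MP_1f44d9_lc.Late.Oracle
import Pool.Agent.Lib.MP_1f44d9_lc.Late.LateIff
import Pool.Agent.Lib.MP_1f44d9_lc.Late.LPoly
import Pool.Agent.Lib.MP_1f44d9_lc.Late.Decode
import Pool.Agent.Lib.MP_1f44d9_lc.Late.Time

/-!
# `P | pmtn | ∑ U_j` is fixed-parameter tractable in the number of distinct processing times
-/

namespace Pool.Agent.Lib.PmtnHard

open Turing Pool.Agent.Lib.PolyTime Pool.Agent.Lib.UBox

/-- The number of distinct processing times of the decoded input. -/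
def npt (t : NBin × NBin × List (NBin × NBin)) : ℕ := (ptimes t.2.2).length

/-- The number of jobs of the decoded input. -/
def njobs (t : NBin × NBin × List (NBin × NBin)) : ℕ := t.2.2.length

/-- The oracle of the decoded input. -/
def orct (t : NBin × NBin × List (NBin × NBin)) (x : List ℤ) : Option (List ℤ) :=
  orcL t.1 t.2.1 t.2.2 x

theorem polyF_npt : PolyF npt := PolyF.length (β := NBin) (lpoly_ptimes PolyF.snd'.snd)

theorem polyF_njobs : PolyF njobs := PolyF.length PolyF.snd'.snd

theorem polyF_orct : PolyF (fun p : (NBin × NBin × List (NBin × NBin)) × List ℤ =>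
    orct p.1 p.2) :=
  polyF_orcL PolyF.fst'.fst PolyF.fst'.snd.fst PolyF.fst'.snd.snd PolyF.snd'

theorem polyF_size {α : Type*} [TEnc α] {f : α → ℕ} (hf : PolyF f) :
    PolyF (fun x => Nat.size (f x)) := by
  have h : PolyF (fun x => (⟨f x⟩ : Bin)) := PolyF.toBin (f := fun x => f x) (PolyF.nbOfNat hf)
  exact PolyF.binSize h

theorem jobs_length_le (I : Input) : I.jobs.length ≤ I.word.length := by
  unfold Input.word
  rw [List.length_append, List.length_flatMap]
  have h : I.jobs.length ≤ (I.jobs.map fun j =>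
      (Input.natWord j.1 ++ Input.natWord j.2).length).sum := by
    generalize I.jobs = J
    induction J with
    | nil => simp
    | cons j J ih =>
      rw [List.map_cons, List.sum_cons, List.length_cons, List.length_append]
      have : 1 ≤ (Input.natWord j.1).length := by unfold Input.natWord; simp
      omega
  omega

theorem polyF_bits {dec : List Bool → NBin × NBin × List (NBin × NBin)} (hdec : PolyF dec)
    (E : ℕ) :
    PolyF (fun w : List Bool => (npt (dec w) + 2) ^ E + (Nat.size (w.length + 2) + 1) * E) :=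
  ((((polyF_npt.comp hdec).succ.succ).natPow E).natAdd
    (((polyF_size (PolyF.length PolyF.id).succ.succ).succ).natMul (PolyF.const E)))

theorem polyF_dec {dec : List Bool → NBin × NBin × List (NBin × NBin)} (hdec : PolyF dec) :
    PolyF (fun p : List Bool × ℕ => solve p.2 (npt (dec p.1)) (njobs (dec p.1))
      (orct (dec p.1))) := by
  have h1 : PolyF (fun p : List Bool × ℕ => npt (dec p.1)) :=
    polyF_npt.comp (hdec.comp PolyF.fst')
  have h2 : PolyF (fun p : List Bool × ℕ => njobs (dec p.1)) :=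
    polyF_njobs.comp (hdec.comp PolyF.fst')
  have h3 : PolyF (fun q : (List Bool × ℕ) × List ℤ => (dec q.1.1, q.2)) :=
    (hdec.comp PolyF.fst'.fst).pair PolyF.snd'
  have h4 : PolyF (fun q : (List Bool × ℕ) × List ℤ => orct (dec q.1.1) q.2) :=
    PolyF.comp (f := fun p : (NBin × NBin × List (NBin × NBin)) × List ℤ => orct p.1 p.2)
      (g := fun q : (List Bool × ℕ) × List ℤ => (dec q.1.1, q.2)) polyF_orct h3
  exact polyF_solve (α := List Bool × ℕ) (M := fun p => p.2) (k := fun p => npt (dec p.1))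
    (N := fun p => njobs (dec p.1)) (orc := fun p => orct (dec p.1)) PolyF.snd' h1 h2 h4

theorem dec_spec {E : ℕ} (hE : ∀ (M k N a : ℕ) (orc : List ℤ → Option (List ℤ))
    (S : Set (List ℤ)), IsOracle k N a orc S → 2 ^ ((k + 2) ^ E) * (N + a + 2) ^ E ≤ M →
    (solve M k N orc = true ↔ S.Nonempty)) (I : Input) :
    solve (2 ^ ((I.pbar + 2) ^ E + (Nat.size (I.word.length + 2) + 1) * E)) I.pbar I.jobs.length
      (orcL I.m I.k I.jobs) = true ↔ I ∈ LateJobs := by
  rw [late_iff]
  refine (hE _ _ _ _ _ _ (isOracle_late I) ?_).trans Iff.rfl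
  rw [pow_add]
  refine Nat.mul_le_mul_left _ ?_
  rw [pow_mul]
  refine Nat.pow_le_pow_left ?_ E
  have h4 := Nat.lt_size_self (I.word.length + 2)
  have h5 := jobs_length_le I
  rw [pow_succ]
  omega

theorem bits_bound (E : ℕ) (I : Input) :
    (I.pbar + 2) ^ E + (Nat.size (I.word.length + 2) + 1) * E ≤
      (I.pbar + 2) ^ (2 * E) + 2 * E * (Nat.log 2 (I.word.length + 2) + 1) := by
  have h2 : Nat.size (I.word.length + 2) ≤ Nat.log 2 (I.word.length + 2) + 1 :=
    Nat.size_le.2 (Nat.lt_pow_succ_log_self (by norm_num) _)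
  have h3 : (I.pbar + 2) ^ E ≤ (I.pbar + 2) ^ (2 * E) :=
    Nat.pow_le_pow_right (by omega) (by omega)
  have h4 : (Nat.size (I.word.length + 2) + 1) * E ≤
      2 * E * (Nat.log 2 (I.word.length + 2) + 1) := by nlinarith
  omega

theorem lateJobs_fpt : ∃ (f : ℕ → ℕ) (c : ℕ), Computable f ∧
    DecidedInTime Input.word LateJobs fun I => f I.pbar * (I.word.length + 1) ^ c := by
  obtain ⟨dec, hdec, hdec'⟩ := exists_decode
  obtain ⟨E, hE⟩ := solve_correct
  have hnpt : ∀ I : Input, npt (dec I.word) = I.pbar := fun I => by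
    rw [hdec', pbar_eq]
    rfl
  have hjobs : ∀ I : Input, njobs (dec I.word) = I.jobs.length := fun I => by
    rw [hdec']
    rfl
  have horc : ∀ I : Input, orct (dec I.word) = orcL I.m I.k I.jobs := fun I => by
    rw [hdec']
    rfl
  refine fpt_of_pad Input.word LateJobs Input.pbar (polyF_dec hdec) (polyF_bits hdec E)
    (fun I => ?_) (2 * E) fun I => ?_
  · rw [hnpt, hjobs, horc]
    exact dec_spec hE I
  · rw [hnpt]
    exact bits_bound E I

end Pool.Agent.Lib.PmtnHard
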