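import Pool.Agent.Lib.MP_1f44d9_lc.Hard.Statement

/-!
# The number of late jobs: statement
-/

namespace Pool.Agent.Lib.PmtnHard

open Classical in
/-- The number of late jobs. -/
noncomputable def Schedule.late {m : ℕ} {J : List (ℕ × ℕ)} (σ : Schedule m J) : ℕ :=
  (Finset.univ.filter fun j : Fin J.length => (J[j].2 : ℝ) < σ.completion j).card

/-- `P | pmtn | ∑ U_j`: is there a schedule with at most `k` late jobs? -/
def LateJobs : Set Input := {I | ∃ σ : Schedule I.m I.jobs, σ.late ≤ I.k}

end Pool.Agent.Lib.PmtnHard
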